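import Pool.Agent.H78.CUR.Stmts

set_option linter.unusedVariables false
set_option linter.unusedSectionVars false
set_option synthInstance.maxSize 100000

/-!
The space is compact.
-/

namespace CUR

open SW

theorem cur_sp3 (hF : FINStmt) (h3 : SP3aStmt) : SP3Stmt := by
  intro N _ _ c D Y d τ hS C hC hcov
  have hfin : FinFacts N := SW.fin N
  have hfn : ∀ x : N, Fin' x ↔ Fnt x := fun x => hF N x
  -- the point at infinity
  have hemp : E (emp : N) Y := (hS.memY emp).2 ⟨none, rfl⟩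
  obtain ⟨U0, hU0, hU0e⟩ := hcov emp hemp
  obtain ⟨hU0s, hU0o⟩ := (hS.memτ U0).1 (hC U0 hU0)
  obtain ⟨ε, hε, hball⟩ := hU0o emp none hU0e rfl
  obtain ⟨n0, hn0⟩ := exists_nat_one_div_lt hε
  -- the first circles
  have hcirc : ∀ m : ℕ, ∃ F : N, Fnt F ∧ (∀ U, E U F → E U C) ∧
      ∀ n < m, ∀ z θ, Pt D z (some (n, θ)) → ∃ U, E U F ∧ E z U := by
    intro m
    induction m with
    | zero => exact ⟨emp, hfin.emp, fun U hU => absurd hU (not_mem_emp U), fun n hn => by omega⟩
    | succ m ih =>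
      obtain ⟨F, hF1, hF2, hF3⟩ := ih
      obtain ⟨F', hF1', hF2', hF3'⟩ := h3 N c D Y d τ hS C hC hcov m
      refine ⟨bun F F', hfin.bun hF1 ((hfn _).1 hF1'), ?_, ?_⟩
      · intro U hU
        rcases mem_bun.1 hU with h | h
        · exact hF2 U h
        · exact hF2' U h
      · intro n hn z θ hz
        rcases Nat.lt_succ_iff_lt_or_eq.1 hn with h | rfl
        · obtain ⟨U, hU, hzU⟩ := hF3 n h z θ hz
          exact ⟨U, mem_bun.2 (Or.inl hU), hzU⟩
        · obtain ⟨U, hU, hzU⟩ := hF3' z θ hz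
          exact ⟨U, mem_bun.2 (Or.inr hU), hzU⟩
  obtain ⟨F, hF1, hF2, hF3⟩ := hcirc n0
  refine ⟨ins U0 F, (hfn _).2 (hfin.ins hF1), ?_, ?_⟩
  · intro U hU
    rcases mem_ins.1 hU with h | rfl
    · exact hF2 U h
    · exact hU0
  · intro z hz
    obtain ⟨y, hy⟩ := (hS.memY z).1 hz
    cases y with
    | none =>
      have : z = emp := hy
      rw [this]
      exact ⟨U0, mem_ins.2 (Or.inr rfl), hU0e⟩
    | some p =>
      obtain ⟨n, θ⟩ := p
      by_cases hn : n < n0
      · obtain ⟨U, hU, hzU⟩ := hF3 n hn z θ hy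
        exact ⟨U, mem_ins.2 (Or.inl hU), hzU⟩
      · refine ⟨U0, mem_ins.2 (Or.inr rfl), hball z _ hy ?_⟩
        refine lt_of_le_of_lt ?_ hn0
        have h1 : (n0 : ℝ) ≤ n := by exact_mod_cast not_lt.1 hn
        simp only [dZ]
        exact one_div_le_one_div_of_le (by positivity) (by linarith)

end CUR
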